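import Mathlib
import Pool.Agent.H934R3.Final41

/-!
# A geometrically infinite hyperbolic 3-manifold without cusps and without minimal surfaces

The definitions are in `Pool.Agent.H934R3.Basic` (the hyperbolic metric), `Pool.Agent.H934R3.Defs`
(groups and surfaces) and `Pool.Agent.H934R3.GeoFin` (geometric finiteness).
-/

set_option autoImplicit false

namespace Pool.Agent.Results.MP_41c3fc_gt.NoMinimalSurfaces

open Pool.Agent.H934R3

/-- There is a geometrically infinite hyperbolic 3-manifold `H3 / Γ` without cusps, which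
contains no finite-area complete embedded minimal surface at all. -/
theorem result : ∃ Γ : Subgroup (H3 ≃ᵢ H3),
    IsDiscreteGroup Γ ∧ IsTorsionFreeGroup Γ ∧ (∀ γ ∈ Γ, ¬ IsParabolic γ) ∧
    ¬ IsGeometricallyFinite Γ ∧
    ∀ S : Set H3, ¬ IsFiniteAreaMinimal Γ S :=
  main41

end Pool.Agent.Results.MP_41c3fc_gt.NoMinimalSurfaces
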